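import Pool.Agent.W2helper39.LC.ZAff2

/-!
# The Bombieri–Lang–Vojta conjecture for affine schemes is a question on the complements of smooth
hypersurfaces in projective spaces

Let `K` be a number field with an embedding `σ` in `ℂ`.

(A) Let `U = V(F) ∖ V(H)` be any affine scheme of this kind in `P^n` over `𝓞 K` (any dimension and any
singularities; `F` a finite family of forms of degree at most `d`, `d ≥ 3`, and `H` a form of degree
`e ≥ 1`, `e` a divisor of `d`; for `H = X_0` these are the affine schemes of finite type), and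
`v : P^n → P^N` the Veronese embedding of degree `d`. For all `D ≥ D₁(N)` there are a number `a ≠ 0` in
`𝓞 K`, a linear form `ℓ` and quadratic forms `Q_t`, `t < N (2 N + 3)`, with coefficients in `𝓞 K`, such
that the hypersurface

`A = a ℓ(y)^(D + 2) + ∑ t, Q_t(y) (y_0 + t y_1 + ⋯ + t^N y_N)^D = 0`

in `P^N` is smooth (over `K`), `A(v(x)) = a H(x)^k` for the points `x` of `V(F)`, so that `v` embeds `U` as
a closed subset of the complement `P^N ∖ {A = 0}`, and every nonconstant entire curve in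
`P^N ∖ {A = 0}` is the image of an entire curve in `U`.

(B) Consequently the equivalence conjectured by Bombieri, Lang and Vojta (all nonconstant entire curves
in `V` lie in `V'` if and only if the sets `V(O_S) ∖ V'(O_S)` are finite), for all affine schemes `V` of
finite type over `𝓞 K` and all closed subschemes `V'`, is equivalent to the same statement for the
complements `V = P^N ∖ {A = 0}` of the smooth hypersurfaces of this form, with `D` in any given infinite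
set, and their closed subschemes `V'` given by finitely many quadratic forms.

(C) The same holds for the implication from entire curves to integral points.

In the starting file `SmoothHypersurfacesSuffice` the affine schemes are embedded in affine
hypersurfaces (with smooth closures), where the boundary is a hyperplane section and plays no role for
the construction. Here the sum of the terms `-A, a ℓ^(D + 2), Q_t ℓ_t^D` is considered, where `A` has
no zeros on the curve.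
-/

set_option autoImplicit false

namespace Pool.Agent.Results.MP_e97a4d_nt.HypersurfaceComplements

open MvPolynomial NumberField IsDedekindDomain
open scoped LinearAlgebra.Projectivization
open Pool.Agent.N254.SQ (SmoothOver Monomials veronese intPoints)

/-- the form `a ℓ ^ (D + 2) + ∑ t, Q_t (y_0 + t y_1 + ⋯ + t ^ N y_N) ^ D` -/
noncomputable def boundaryForm {R : Type} [CommRing R] {N M : ℕ} (D : ℕ) (a : R)
    (ℓ : MvPolynomial (Fin (N + 1)) R) (Q : Fin M → MvPolynomial (Fin (N + 1)) R) :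
    MvPolynomial (Fin (N + 1)) R :=
  C a * ℓ ^ (D + 2) +
    ∑ t : Fin M, Q t * (∑ j : Fin (N + 1), C (((t : ℕ) : R) ^ (j : ℕ)) * X j) ^ D

section

variable {K : Type} [Field K] {n N : ℕ} {ι κ : Type}

/-- the value of the form `F` over `𝓞 K` at a vector over an extension of `K` -/
noncomputable def val {Ω : Type} [Field Ω] (τ : K →+* Ω) (x : Fin n → Ω)
    (F : MvPolynomial (Fin n) (𝓞 K)) : Ω := eval₂ (τ.comp (algebraMap (𝓞 K) K)) x F

/-- condition (i) for the affine scheme `V(F)` over `𝓞 K` and its closed subscheme `V(G)`: all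
nonconstant entire curves in `V(F)` lie in `V(G)` -/
def AffineCurvesIn (σ : K →+* ℂ) (F : ι → MvPolynomial (Fin n) (𝓞 K))
    (G : κ → MvPolynomial (Fin n) (𝓞 K)) : Prop :=
  ∀ f : ℂ → Fin n → ℂ, Differentiable ℂ f → (∀ z i, val σ (f z) (F i) = 0) →
    (∃ z w, f z ≠ f w) → ∀ z k, val σ (f z) (G k) = 0

/-- condition (ii) for the affine scheme `V(F)` over `𝓞 K` and its closed subscheme `V(G)`: for all
finite extensions `L` of `K` and finite `S`, almost all `S`-integral points of `V(F)` lie in `V(G)` -/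
def AffinePointsIn (F : ι → MvPolynomial (Fin n) (𝓞 K)) (G : κ → MvPolynomial (Fin n) (𝓞 K)) :
    Prop :=
  ∀ (L : Type) [Field L] [NumberField L] [Algebra K L] (S : Set (HeightOneSpectrum (𝓞 L))),
    S.Finite → (intPoints F L S \ intPoints G L S).Finite

/-- condition (i) for the complement of `A = 0` in `P^N` and its closed subscheme `V(G)`: all
nonconstant entire curves in `P^N ∖ {A = 0}` lie in `V(G)` -/
def CurvesIn (σ : K →+* ℂ) (A : MvPolynomial (Fin (N + 1)) (𝓞 K))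
    (G : κ → MvPolynomial (Fin (N + 1)) (𝓞 K)) : Prop :=
  ∀ f : ℂ → Fin (N + 1) → ℂ, Differentiable ℂ f → (∀ z, f z ≠ 0) → (∀ z, val σ (f z) A ≠ 0) →
    (∃ z w, ∀ c : ℂ, f w ≠ c • f z) → ∀ z l, val σ (f z) (G l) = 0

/-- the `S`-integral points over `L` of the complement of `A = 0` in `P^N` over `𝓞 K`: for `v ∉ S` and
homogeneous coordinates which are integral at `v` and not all divisible by `v`, the value of `A` is
a unit at `v` -/
def complementPoints (A : MvPolynomial (Fin (N + 1)) (𝓞 K)) (L : Type) [Field L] [NumberField L]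
    [Algebra K L] (S : Set (HeightOneSpectrum (𝓞 L))) : Set (ℙ L (Fin (N + 1) → L)) :=
  {P | val (algebraMap K L) P.rep A ≠ 0 ∧ ∀ v ∉ S, ∃ c : L,
    (∀ j, v.valuation L (c * P.rep j) ≤ 1) ∧ (∃ j, v.valuation L (c * P.rep j) = 1) ∧
      v.valuation L (val (algebraMap K L) (fun j => c * P.rep j) A) = 1}

/-- condition (ii) for the complement of `A = 0` in `P^N` and its closed subscheme `V(G)` -/
def PointsIn (A : MvPolynomial (Fin (N + 1)) (𝓞 K)) (G : κ → MvPolynomial (Fin (N + 1)) (𝓞 K)) :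
    Prop :=
  ∀ (L : Type) [Field L] [NumberField L] [Algebra K L] (S : Set (HeightOneSpectrum (𝓞 L))),
    S.Finite → (complementPoints A L S \
      {P | ∀ l, val (algebraMap K L) P.rep (G l) = 0}).Finite

end

section proof

open Pool.Agent.N254.SQ (Mon ver t_num zbZ RedNotIn)
open Pool.Agent.W2helper39.LC (ConsZ cons_z_all zblv_c quasi_of_aff aff_of_quasi ZbCur ZbPts formR
  homR homR_form AffCur AffPts formR_hom)

variable {K : Type} [Field K] {N : ℕ} {κ : Type}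

theorem cur_iff (σ : K →+* ℂ) (A : MvPolynomial (Fin (N + 1)) (𝓞 K))
    (G : κ → MvPolynomial (Fin (N + 1)) (𝓞 K)) :
    ZbCur σ (zbZ (fun i : Empty => i.elim)) (zbZ G) (fun _ : Unit => A) ↔ CurvesIn σ A G := by
  constructor
  · intro h f hf hf0 hfA hne z
    exact h f hf hf0 (fun z i => i.elim) (fun z => ⟨(), hfA z⟩) hne z
  · intro h f hf hf0 _ hfA hne z
    exact h f hf hf0 (fun z => (hfA z).choose_spec) hne z

theorem pts_iff (A : MvPolynomial (Fin (N + 1)) (𝓞 K))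
    (G : κ → MvPolynomial (Fin (N + 1)) (𝓞 K)) :
    ZbPts (zbZ (fun i : Empty => i.elim)) (zbZ G) (fun _ : Unit => A) ↔ PointsIn A G := by
  refine forall_congr' fun L => forall_congr' fun _ => forall_congr' fun _ => forall_congr' fun _ =>
    forall_congr' fun S => forall_congr' fun _ => ?_
  have : {P : ℙ L (Fin (N + 1) → L) | zbZ (fun i : Empty => i.elim) L (algebraMap K L) P.rep ∧
      (∃ _k : Unit, eval₂ ((algebraMap K L).comp (algebraMap (𝓞 K) K)) P.rep A ≠ 0) ∧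
      ∀ v ∉ S, RedNotIn (fun _ : Unit => A) P.rep v} = complementPoints A L S := by
    ext P
    constructor
    · rintro ⟨-, ⟨_, h1⟩, h2⟩
      refine ⟨h1, fun v hv => ?_⟩
      obtain ⟨c, h3, h4, _, h5⟩ := h2 v hv
      exact ⟨c, h3, h4, h5⟩
    · rintro ⟨h1, h2⟩
      refine ⟨fun i => i.elim, ⟨(), h1⟩, fun v hv => ?_⟩
      obtain ⟨c, h3, h4, h5⟩ := h2 v hv
      exact ⟨c, h3, h4, (), h5⟩
  rw [this]
  rfl

theorem fin_eq {R : Type} [Field R] (x y : Fin (0 + 1) → R) (hx : x ≠ 0) :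
    ∃ c : R, y = c • x := by
  have hx0 : x 0 ≠ 0 := by
    intro h
    apply hx
    funext j
    rw [Fin.fin_one_eq_zero j]
    exact h
  refine ⟨y 0 / x 0, funext fun j => ?_⟩
  rw [Fin.fin_one_eq_zero j, Pi.smul_apply, smul_eq_mul, div_mul_cancel₀ _ hx0]

theorem cur_zero (σ : K →+* ℂ) (A : MvPolynomial (Fin (0 + 1)) (𝓞 K))
    (G : κ → MvPolynomial (Fin (0 + 1)) (𝓞 K)) : CurvesIn σ A G := by
  rintro f _ hf0 _ ⟨z, w, h⟩
  obtain ⟨c, hc⟩ := fin_eq (f z) (f w) (hf0 z)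
  exact absurd hc (h c)

theorem pts_zero (A : MvPolynomial (Fin (0 + 1)) (𝓞 K))
    (G : κ → MvPolynomial (Fin (0 + 1)) (𝓞 K)) : PointsIn A G := by
  intro L _ _ _ S _
  apply Set.Subsingleton.finite
  intro P _ P' _
  obtain ⟨c, hc⟩ := fin_eq P'.rep P.rep P'.rep_nonzero
  rw [← P.mk_rep, ← P'.mk_rep, Projectivization.mk_eq_mk_iff']
  exact ⟨c, hc.symm⟩

theorem aff_cur_zero {ι : Type} (σ : K →+* ℂ) (F : ι → MvPolynomial (Fin 0) (𝓞 K))
    (G : κ → MvPolynomial (Fin 0) (𝓞 K)) : AffineCurvesIn σ F G := by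
  rintro f _ _ ⟨z, w, h⟩
  exact absurd (Subsingleton.elim _ _) h

theorem aff_pts_zero {ι : Type} (F : ι → MvPolynomial (Fin 0) (𝓞 K))
    (G : κ → MvPolynomial (Fin 0) (𝓞 K)) : AffinePointsIn F G := by
  intro L _ _ _ S _
  exact Set.Subsingleton.finite fun x _ y _ => Subsingleton.elim x y

/-- complements as affine schemes -/
theorem to_affine [NumberField K] (σ : K →+* ℂ) (hN : 1 ≤ N)
    (A : MvPolynomial (Fin (N + 1)) (𝓞 K)) (hA : ∃ e, 1 ≤ e ∧ A.IsHomogeneous e)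
    (G : κ → MvPolynomial (Fin (N + 1)) (𝓞 K)) (hG : ∀ l, ∃ e, (G l).IsHomogeneous e) :
    ∃ (n : ℕ) (ι₁ ι₂ : Type) (_ : Finite ι₁) (F' : ι₁ → MvPolynomial (Fin n) (𝓞 K))
      (G' : ι₂ → MvPolynomial (Fin n) (𝓞 K)),
      (AffineCurvesIn σ F' G' ↔ CurvesIn σ A G) ∧ (AffinePointsIn F' G' ↔ PointsIn A G) := by
  obtain ⟨n, ι₁, ι₂, hfin, F', G', h1, h2⟩ := quasi_of_aff σ N hN Empty κ
    (fun i : Empty => i.elim) A G (fun i => i.elim) hA hG
  exact ⟨n, ι₁, ι₂, hfin, F', G', h1.trans (cur_iff σ A G), h2.trans (pts_iff A G)⟩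

/-- affine schemes and complements -/
theorem of_affine {D₁ : ℕ → ℕ} (hD₁ : ∀ N, 1 ≤ N → ConsZ N (D₁ N)) (K : Type) [Field K]
    [NumberField K] (σ : K →+* ℂ) (E : Set ℕ) (hE : E.Infinite)
    (H : ∀ (N D : ℕ) (a : 𝓞 K) (ℓ : MvPolynomial (Fin (N + 1)) (𝓞 K))
      (Q : Fin (N * (2 * N + 3)) → MvPolynomial (Fin (N + 1)) (𝓞 K)), D ∈ E → D₁ N ≤ D → a ≠ 0 →
      ℓ.IsHomogeneous 1 → (∀ t, (Q t).IsHomogeneous 2) →
      SmoothOver (map (algebraMap (𝓞 K) K) (boundaryForm D a ℓ Q)) →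
      ∀ (τ : Type) [Finite τ] (G : τ → MvPolynomial (Fin (N + 1)) (𝓞 K)),
        (∀ l, (G l).IsHomogeneous 2) → CurvesIn σ (boundaryForm D a ℓ Q) G →
          PointsIn (boundaryForm D a ℓ Q) G)
    (n : ℕ) (hn : 1 ≤ n) (ι κ : Type) [Finite ι] (F : ι → MvPolynomial (Fin n) (𝓞 K))
    (G : κ → MvPolynomial (Fin n) (𝓞 K)) :
    ∃ (N D : ℕ) (a : 𝓞 K) (ℓ : MvPolynomial (Fin (N + 1)) (𝓞 K))
      (Q : Fin (N * (2 * N + 3)) → MvPolynomial (Fin (N + 1)) (𝓞 K)), D ∈ E ∧ D₁ N ≤ D ∧ a ≠ 0 ∧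
      ℓ.IsHomogeneous 1 ∧ (∀ t, (Q t).IsHomogeneous 2) ∧
      SmoothOver (map (algebraMap (𝓞 K) K) (boundaryForm D a ℓ Q)) ∧
      ∃ (τ : Type) (_ : Finite τ) (G' : τ → MvPolynomial (Fin (N + 1)) (𝓞 K)),
        (∀ l, (G' l).IsHomogeneous 2) ∧
        (AffineCurvesIn σ F G ↔ CurvesIn σ (boundaryForm D a ℓ Q) G') ∧
        (AffinePointsIn F G ↔ PointsIn (boundaryForm D a ℓ Q) G') := by
  obtain ⟨e1, e2⟩ := aff_of_quasi σ F G
  obtain ⟨N, D, a, ℓ, Q, hDE, hD, ha, hℓ, hQ, hsm, τ, hfin, G', hG', h1, h2⟩ :=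
    zblv_c D₁ hD₁ K σ E hE (fun N D a ℓ Q hDE hD ha hℓ hQ hsm τ _ G hG hc =>
      (pts_iff _ G).2 (H N D a ℓ Q hDE hD ha hℓ hQ hsm τ G hG ((cur_iff σ _ G).1 hc)))
    n hn ι κ (fun i => homR (F i).totalDegree (F i)) (X 0)
    (fun k => homR (G k).totalDegree (G k)) (fun i => ⟨_, homR_form le_rfl⟩)
    ⟨1, le_rfl, isHomogeneous_X _ _⟩ (fun k => ⟨_, homR_form le_rfl⟩)
  exact ⟨N, D, a, ℓ, Q, hDE, hD, ha, hℓ, hQ, hsm, τ, hfin, G', hG',
    (e1.trans h1).trans (cur_iff σ _ G'), (e2.trans h2).trans (pts_iff _ G')⟩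

end proof

theorem result : ∃ D₁ : ℕ → ℕ,
    (∀ n d : ℕ, 1 ≤ n → 3 ≤ d → ∃ (N : ℕ) (m : Fin (N + 1) → Fin (n + 1) → ℕ),
      Monomials n N d m ∧ ∀ D, D₁ N ≤ D →
      ∀ (K : Type) [Field K] [NumberField K] (ι : Type) [Finite ι]
        (F : ι → MvPolynomial (Fin (n + 1)) (𝓞 K)), (∀ i, ∃ e ≤ d, (F i).IsHomogeneous e) →
        ∀ (e : ℕ) (H : MvPolynomial (Fin (n + 1)) (𝓞 K)), 1 ≤ e → e ∣ d → H.IsHomogeneous e →
        ∃ (a : 𝓞 K) (ℓ : MvPolynomial (Fin (N + 1)) (𝓞 K))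
          (Q : Fin (N * (2 * N + 3)) → MvPolynomial (Fin (N + 1)) (𝓞 K)), a ≠ 0 ∧
          ℓ.IsHomogeneous 1 ∧ (∀ t, (Q t).IsHomogeneous 2) ∧
          SmoothOver (map (algebraMap (𝓞 K) K) (boundaryForm D a ℓ Q)) ∧
          (∃ k, 1 ≤ k ∧ ∀ (Ω : Type) [Field Ω] (τ : K →+* Ω) (x : Fin (n + 1) → Ω),
            (∀ i, val τ x (F i) = 0) →
            val τ (veronese m x) (boundaryForm D a ℓ Q) =
              τ (algebraMap (𝓞 K) K a) * val τ x H ^ k) ∧
          ∀ (σ : K →+* ℂ) (f : ℂ → Fin (N + 1) → ℂ), Differentiable ℂ f → (∀ z, f z ≠ 0) →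
            (∀ z, val σ (f z) (boundaryForm D a ℓ Q) ≠ 0) →
            (¬ ∀ z w, ∃ c : ℂ, f w = c • f z) →
            ∃ f₁ : ℂ → Fin (n + 1) → ℂ, Differentiable ℂ f₁ ∧ (∀ z, f₁ z ≠ 0) ∧
              (∀ z i, val σ (f₁ z) (F i) = 0) ∧ (∀ z, val σ (f₁ z) H ≠ 0) ∧
              ∀ z, f z = veronese m (f₁ z)) ∧
    ∀ (K : Type) [Field K] [NumberField K] (σ : K →+* ℂ) (E : Set ℕ), E.Infinite →
      ((∀ (n : ℕ) (ι κ : Type) [Finite ι] (F : ι → MvPolynomial (Fin n) (𝓞 K))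
          (G : κ → MvPolynomial (Fin n) (𝓞 K)), AffineCurvesIn σ F G ↔ AffinePointsIn F G) ↔
        ∀ (N D : ℕ) (a : 𝓞 K) (ℓ : MvPolynomial (Fin (N + 1)) (𝓞 K))
          (Q : Fin (N * (2 * N + 3)) → MvPolynomial (Fin (N + 1)) (𝓞 K)), D ∈ E → D₁ N ≤ D →
          a ≠ 0 → ℓ.IsHomogeneous 1 → (∀ t, (Q t).IsHomogeneous 2) →
          SmoothOver (map (algebraMap (𝓞 K) K) (boundaryForm D a ℓ Q)) →
          ∀ (τ : Type) [Finite τ] (G : τ → MvPolynomial (Fin (N + 1)) (𝓞 K)),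
            (∀ l, (G l).IsHomogeneous 2) →
            (CurvesIn σ (boundaryForm D a ℓ Q) G ↔ PointsIn (boundaryForm D a ℓ Q) G)) ∧
      ((∀ (n : ℕ) (ι κ : Type) [Finite ι] (F : ι → MvPolynomial (Fin n) (𝓞 K))
          (G : κ → MvPolynomial (Fin n) (𝓞 K)), AffineCurvesIn σ F G → AffinePointsIn F G) ↔
        ∀ (N D : ℕ) (a : 𝓞 K) (ℓ : MvPolynomial (Fin (N + 1)) (𝓞 K))
          (Q : Fin (N * (2 * N + 3)) → MvPolynomial (Fin (N + 1)) (𝓞 K)), D ∈ E → D₁ N ≤ D →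
          a ≠ 0 → ℓ.IsHomogeneous 1 → (∀ t, (Q t).IsHomogeneous 2) →
          SmoothOver (map (algebraMap (𝓞 K) K) (boundaryForm D a ℓ Q)) →
          ∀ (τ : Type) [Finite τ] (G : τ → MvPolynomial (Fin (N + 1)) (𝓞 K)),
            (∀ l, (G l).IsHomogeneous 2) →
            CurvesIn σ (boundaryForm D a ℓ Q) G → PointsIn (boundaryForm D a ℓ Q) G) := by
  obtain ⟨D₁, hD₁⟩ := Pool.Agent.W2helper39.LC.cons_z_all
  refine ⟨D₁, ?_, ?_⟩
  · intro n d hn hd
    obtain ⟨N, m, hm, hN⟩ := Pool.Agent.N254.SQ.t_num n d hn hd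
    refine ⟨N, m, ⟨hm.deg, hm.inj, hm.surj⟩, fun D hD K _ _ ι _ F hF e H he hed hH => ?_⟩
    obtain ⟨a, ℓ, Q, ha, hℓ, hQ, hsm, ⟨k, hk1, hk⟩, hcur⟩ :=
      hD₁ N (by omega) n d hn hd m hm hN D hD K ι F hF e H he hed hH
    refine ⟨a, ℓ, Q, ha, hℓ, hQ, hsm, ⟨k, hk1, hk⟩, fun σ f hf hf0 hfA hnc => ?_⟩
    obtain ⟨f₁, h1, h2, h3, h4⟩ := hcur σ f hf hf0 hfA hnc
    refine ⟨f₁, h1, h2, h3, fun z h0 => hfA z ?_, h4⟩
    have h5 := hk ℂ σ (f₁ z) (h3 z)
    rw [← h4 z] at h5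
    have h6 : eval₂ (σ.comp (algebraMap (𝓞 K) K)) (f₁ z) H = 0 := h0
    rw [h6, zero_pow (by omega), mul_zero] at h5
    exact h5
  · intro K _ _ σ E hE
    have hform : ∀ (N D : ℕ) (a : 𝓞 K) (ℓ : MvPolynomial (Fin (N + 1)) (𝓞 K))
        (Q : Fin (N * (2 * N + 3)) → MvPolynomial (Fin (N + 1)) (𝓞 K)), ℓ.IsHomogeneous 1 →
        (∀ t, (Q t).IsHomogeneous 2) → ∃ e, 1 ≤ e ∧ (boundaryForm D a ℓ Q).IsHomogeneous e :=
      fun N D a ℓ Q hℓ hQ =>
        ⟨D + 2, by omega, Pool.Agent.W2helper39.LC.formR_hom D hℓ hQ⟩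
    refine ⟨⟨?_, ?_⟩, ⟨?_, ?_⟩⟩
    · intro h N D a ℓ Q _ _ _ hℓ hQ _ τ _ G hG
      rcases Nat.eq_zero_or_pos N with rfl | hN
      · exact ⟨fun _ => pts_zero _ _, fun _ => cur_zero σ _ _⟩
      · obtain ⟨n, ι₁, ι₂, _, F', G', e1, e2⟩ := to_affine σ hN (boundaryForm D a ℓ Q)
          (hform N D a ℓ Q hℓ hQ) G fun l => ⟨2, hG l⟩
        exact e1.symm.trans ((h n ι₁ ι₂ F' G').trans e2)
    · intro h n ι κ _ F G
      rcases Nat.eq_zero_or_pos n with rfl | hn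
      · exact ⟨fun _ => aff_pts_zero _ _, fun _ => aff_cur_zero σ _ _⟩
      · obtain ⟨N, D, a, ℓ, Q, hDE, hD, ha, hℓ, hQ, hsm, τ, _, G', hG', e1, e2⟩ :=
          of_affine hD₁ K σ E hE (fun N D a ℓ Q hDE hD ha hℓ hQ hsm τ _ G hG =>
            (h N D a ℓ Q hDE hD ha hℓ hQ hsm τ G hG).1) n hn ι κ F G
        exact e1.trans ((h N D a ℓ Q hDE hD ha hℓ hQ hsm τ G' hG').trans e2.symm)
    · intro h N D a ℓ Q _ _ _ hℓ hQ _ τ _ G hG
      rcases Nat.eq_zero_or_pos N with rfl | hN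
      · exact fun _ => pts_zero _ _
      · obtain ⟨n, ι₁, ι₂, _, F', G', e1, e2⟩ := to_affine σ hN (boundaryForm D a ℓ Q)
          (hform N D a ℓ Q hℓ hQ) G fun l => ⟨2, hG l⟩
        exact fun h1 => e2.1 (h n ι₁ ι₂ F' G' (e1.2 h1))
    · intro h n ι κ _ F G
      rcases Nat.eq_zero_or_pos n with rfl | hn
      · exact fun _ => aff_pts_zero _ _
      · obtain ⟨N, D, a, ℓ, Q, hDE, hD, ha, hℓ, hQ, hsm, τ, _, G', hG', e1, e2⟩ :=
          of_affine hD₁ K σ E hE (fun N D a ℓ Q hDE hD ha hℓ hQ hsm τ _ G hG =>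
            h N D a ℓ Q hDE hD ha hℓ hQ hsm τ G hG) n hn ι κ F G
        exact fun h1 => e2.2 (h N D a ℓ Q hDE hD ha hℓ hQ hsm τ G' hG' (e1.1 h1))

end Pool.Agent.Results.MP_e97a4d_nt.HypersurfaceComplements
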